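import Pool.Agent.helper80.EN.Spec

/-!
# Row en:PFI (MP_43ab4e_al): finite groups have the property `P`.
-/

set_option autoImplicit false

namespace Pool.Agent.helper80.EN

open Subgroup

universe u

theorem PFI (hBAE : BAE_stmt.{u}) (hSNB : SNB_stmt.{u}) (hHPR : HPR_stmt.{u})
    (hTRF : TRF_stmt.{u}) (hBAS : BAS_stmt.{u}) : PFI_stmt.{u} := by
  intro B _ _ α hα
  let A : Subgroup (MulAut B) := zpowers α
  let φ : A →* MulAut B := A.subtype
  let T : Type u := B ⋊[φ] A
  have : Finite (MulAut B) := by
    apply Finite.of_injective (fun f : MulAut B => (f : B → B))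
    intro f g h
    exact DFunLike.coe_injective h
  have : Finite A := inferInstance
  have : Finite T := Finite.of_equiv _ (SemidirectProduct.equivProd (φ := φ)).symm
  let g : A := ⟨α, mem_zpowers α⟩
  let inl : B →* T := SemidirectProduct.inl
  let inr : A →* T := SemidirectProduct.inr
  have hinl : Function.Injective inl := SemidirectProduct.inl_injective
  obtain ⟨a, ha⟩ : ∃ a : T, a = (inr g)⁻¹ := ⟨_, rfl⟩
  have hcom : ∀ c : B, com (inl c) a = inl (del α c) := by
    intro c
    have h1 : inl (φ g c) = inr g * inl c * inr g⁻¹ := SemidirectProduct.inl_aut g c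
    have h2 : φ g c = α c := rfl
    rw [h2] at h1
    have h3 : inr g⁻¹ = (inr g)⁻¹ := map_inv inr g
    rw [h3] at h1
    rw [com, del, ha, map_mul, map_inv, h1, inv_inv]
    simp only [mul_assoc]
  have hicom : ∀ (b : B) (n : ℕ), icom (inl b) a n = inl ((del α)^[n] b) := by
    intro b n
    induction n with
    | zero => rfl
    | succ n ih =>
      rw [icom, ih, hcom, Function.iterate_succ_apply']
  obtain ⟨-, -, -, -, hlast⟩ := hBAS T
  obtain ⟨t1, -, t3, -, t5, -, -⟩ := hTRF T
  have hEng : EngelOn inl.range a := by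
    rintro x ⟨b, rfl⟩
    obtain ⟨n, hn⟩ := hα b
    exact ⟨n, by rw [hicom, hn, map_one]⟩
  have hnorm : inl.range.Normal := by
    have : inl.range = (SemidirectProduct.rightHom : T →* A).ker :=
      SemidirectProduct.range_inl_eq_ker_rightHom
    rw [this]
    exact MonoidHom.normal_ker _
  have htop : inl.range ⊔ zpowers a = ⊤ := by
    rw [eq_top_iff]
    intro x _
    have hx : x = inl x.left * inr x.right := (SemidirectProduct.inl_left_mul_inr_right x).symm
    rw [hx]
    apply Subgroup.mul_mem_sup
    · exact ⟨x.left, rfl⟩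
    · obtain ⟨k, hk⟩ := mem_zpowers_iff.1 x.right.2
      rw [mem_zpowers_iff]
      refine ⟨-k, ?_⟩
      have hgk : g ^ k = x.right := by
        apply Subtype.ext
        rw [Subgroup.coe_zpow]
        exact hk
      rw [ha, inv_zpow', neg_neg, ← map_zpow, hgk]
  have hLE : LeftEngel a := hlast _ a hnorm htop hEng
  have hsub := hBAE T a hLE
  have hnil : Group.IsNilpotent (zpowers a) := by
    letI : CommGroup (zpowers a) :=
      { (inferInstance : Group (zpowers a)) with mul_comm := fun x y => mul_comm' x y }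
    exact CommGroup.isNilpotent
  have hle := hSNB T (zpowers a) hsub (t5 _ hnil)
  have haHP : a ∈ HP T := hle (mem_zpowers a)
  obtain ⟨hN, hL, -, -⟩ := hHPR T
  have hmap : (Bra α).map inl ≤ HP T := by
    rw [Subgroup.map_le_iff_le_comap, Bra, closure_le]
    rintro x ⟨b, rfl⟩
    change inl (del α b) ∈ HP T
    rw [← hcom, com]
    have h1 : (inl b)⁻¹ * a⁻¹ * inl b ∈ HP T := by
      have := hN.conj_mem a⁻¹ ((HP T).inv_mem haHP) (inl b)⁻¹
      rwa [inv_inv] at this
    exact (HP T).mul_mem h1 haHP
  obtain ⟨-, -, s3, -, -, -, -⟩ := hTRF B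
  exact s3 T inl (Bra α) hinl (t1 _ _ hmap hL)

end Pool.Agent.helper80.EN
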